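import Pool.Agent.Lib.MP_7d4c8f_an.Q1Arc
import Pool.Agent.Lib.MP_7d4c8f_an.Q1Blk
import Pool.Agent.Lib.MP_7d4c8f_an.Q1Low
import Pool.Agent.Lib.MP_7d4c8f_an.HanMac

/-! A smooth Tonelli Lagrangian whose quotient Aubry set is not totally disconnected. -/

namespace Pool.Agent.Results.MP_7d4c8f_an.Arc

open Pool.Agent.Lib.MP_7d4c8f_an.Q1

theorem result : ∃ (d : ℕ) (L : Ph d → ℝ) (φ : ℝ → Ph d → Ph d) (α : ℝ),
    IsTonelli L ∧ IsELFlow L φ ∧ IsAlpha L φ α ∧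
    ∃ (Q : Type) (_ : MetricSpace Q) (q : aubry L α → Q), Function.Surjective q ∧
      (∀ x y, ((dist (q x) (q y) : ℝ) : EReal) = rho L α x y) ∧
      ∃ s : Set Q, IsConnected s ∧ s.Nontrivial :=
  stack arc _ _ _ _ _ _ Pool.Agent.Lib.MP_7d4c8f_an.Han.han_low
    Pool.Agent.Lib.MP_7d4c8f_an.Han.Mac.han_up

end Pool.Agent.Results.MP_7d4c8f_an.Arc
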