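import Pool.Agent.Lib.MP_7d4c8f_an.Fin

/-! A smooth Tonelli Lagrangian whose quotient Aubry set has positive Hausdorff dimension. -/

namespace Pool.Agent.Results.MP_7d4c8f_an.PositiveDim

open Pool.Agent.Lib.MP_7d4c8f_an

theorem result : ∃ (L : Ph → ℝ) (φ : ℝ → Ph → Ph) (α : ℝ),
    IsTonelli L ∧ IsELFlow L φ ∧ IsAlpha L φ α ∧
    ∃ (Q : Type) (_ : MetricSpace Q) (q : aubry L α → Q), Function.Surjective q ∧
      (∀ x y, ((dist (q x) (q y) : ℝ) : EReal) = rho L α x y) ∧ 0 < dimH (Set.univ : Set Q) :=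
  main_metric

end Pool.Agent.Results.MP_7d4c8f_an.PositiveDim
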